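import Mathlib
import Pool.Agent.H16U.TwoD
import Pool.Agent.H16U.Ari

/-!
# MP_d88658_nt: the uniform height bound for points at which factors of `f` are coprime

The inequality `h(x) ≤ C (1 + h(f))` of Q1 is proved, with a constant `C` depending only on the
degree, a fixed number field and a fixed finite set, in the following three situations. In all of
them `f ∈ ℤ[X]` is an arbitrary polynomial of degree at most `d` without repeated roots, `M ≥ 1`
bounds the absolute values of its coefficients, and the conclusion is
`log max (|x|, 1) ≤ C (1 + log M)`.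

1. (Descent classes.) `k` is a number field, `T ⊂ k` a finite set. If `a ≠ b` are two nonconstant
monic divisors of `f` in `k[X]`, both of even degree, and `x` is an integer such that `a(x)` and
`b(x)` belong to `T · k²`, the bound holds, with `C = C(k, T, d)`. (If `a₁ a₂ a₃` divides `f`, with
nonconstant monic `aᵢ` of arbitrary degrees and `aᵢ(x) ∈ T · k²`, one can use two of the products of
the `aᵢ`.) Only the values of two factors are restricted to finitely many square classes; the
divisors and their fields of definition inside `k`, the curve and the class of `x - θ` for the roots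
`θ` of `f` are arbitrary. A single divisor would not be enough: `x² - 2 u² = 1` has infinitely many
solutions.

2. (Integral points, coprime values.) `k` is a number field, `S` a finite set of primes of `k`,
`f = g₁ ⋯ gₙ` a factorization over the ring of integers of `k`, `D` a nonzero integer and `(x, y)` an
integral point of `y² = D f(x)`. A factor `gᵢ` is good at the point, if it is not constant, its
leading coefficient is a square times an `S`-unit and no prime outside `S` divides `gᵢ(x)` and one of
the numbers `D`, `gⱼ(x)` with `j ≠ i`. If there are three good factors, or two good factors such that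
all the good ones considered have even degree, the bound holds, with `C = C(k, S, d)`. The other
factors, the coefficients and the twist `D` are arbitrary; `C` does not depend on `D`.

3. (A family for which all integral points of almost all kinds of twists are treated.) `k, S` are as
in 2., and `f = g₁ ⋯ gₙ`, where each member `gᵢ` of a set `G` of factors is not constant, has a leading
coefficient which is a square times an `S`-unit, and is comaximal with every other factor over the
ring of `S`-integers: `u gᵢ + w gⱼ = s`, `s` prime to all the primes outside `S` (for instance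
pairwise resultants which are `S`-units). Then for all nonzero integers `D` and all integral points
`(x, y)` of `y² = D f(x)` the bound holds, with `C = C(k, S, d)`, if at most `#G - 3` primes outside
`S` divide `D`, or at most `#G' - 2`, where `G'` are the members of `G` of even degree. In particular
(`D = 1`) Q1 holds for all products of three comaximal factors, with one constant.

The coefficients of `f` and of the factors vary, there are infinitely many factorizations in each
degree, and the curves have arbitrary genus. The constant is ineffective. The proof is a form of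
Siegel's theorem with moving targets: if the bound fails for a sequence of polynomials, the points
are so large that all the coefficients, and the coefficients of the Laurent expansions of
`√(a(X)), √(b(X))` at infinity, become negligible, and the subspace theorem with moving targets
for a fixed number field (the library theorem `Pool.Agent.N754.MT`) gives a linear relation between
`xⁱ √a(x)`, `xⁱ √b(x)`, `xⁱ` with negligible coefficients, which contradicts the independence of
`√a`, `√b`, `1` over the rational functions. In 2. and 3. the finiteness of the 2-Selmer group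
`k(S, 2)` puts the good factors into finitely many square classes.

Relation to the other results for this problem: `DivisibleOverNumberFields` needs the
class of `x - T` in `K[T] / (g)`, that is, of all the numbers `x - θ`; it contains the case of 1. in
which `a, b` are products of three linear factors over `k` with values in `T · k²`, but nothing about
factors of degree at least two, of which only the norms `a(x)` of `x - θ` are restricted here. If the
value of one monic factor of even degree is a square in `ℚ`, the bound is trivial (Runge); this is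
the case if `k = ℚ` and `S` is empty or has one element, but not for larger `S` or `k`.
-/

open Polynomial NumberField IsDedekindDomain

set_option autoImplicit false

namespace Pool.Agent.Results.MP_d88658_nt.CoprimeFactors

theorem result :
    (∀ (k : Type) [Field k] [NumberField k] (T : Finset k) (d : ℕ), ∃ C : ℝ,
      ∀ f : ℤ[X], f.natDegree ≤ d → (f.map (Int.castRingHom ℚ)).Separable →
      ∀ M : ℝ, 1 ≤ M → (∀ i, |(f.coeff i : ℝ)| ≤ M) → ∀ (x : ℤ),
      ∀ a b : k[X], a.Monic → b.Monic → a ∣ f.map (Int.castRingHom k) →
        b ∣ f.map (Int.castRingHom k) → a ≠ 1 → b ≠ 1 → a ≠ b → Even a.natDegree →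
        Even b.natDegree →
        (∃ t ∈ T, ∃ u : k, a.eval (x : k) = t * u ^ 2) →
        (∃ t ∈ T, ∃ u : k, b.eval (x : k) = t * u ^ 2) →
        Real.log (max |(x : ℝ)| 1) ≤ C * (1 + Real.log M)) ∧
    (∀ (k : Type) [Field k] [NumberField k] (S : Finset (HeightOneSpectrum (𝓞 k))) (d : ℕ),
      ∃ C : ℝ, ∀ f : ℤ[X], f.natDegree ≤ d → (f.map (Int.castRingHom ℚ)).Separable →
      ∀ M : ℝ, 1 ≤ M → (∀ i, |(f.coeff i : ℝ)| ≤ M) →
      ∀ (n : ℕ) (g : Fin n → (𝓞 k)[X]), f.map (Int.castRingHom (𝓞 k)) = ∏ i, g i →
      ∀ D x y : ℤ, D ≠ 0 → y ^ 2 = D * f.eval x → ∀ G : Finset (Fin n),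
      (∀ i ∈ G, 0 < (g i).natDegree ∧
        (∃ e b : 𝓞 k, (g i).leadingCoeff = e * b ^ 2 ∧ ∀ v ∉ S, e ∉ v.asIdeal) ∧
        ∀ v ∉ S, (g i).eval (x : 𝓞 k) ∈ v.asIdeal →
          (D : 𝓞 k) ∉ v.asIdeal ∧ ∀ j, j ≠ i → (g j).eval (x : 𝓞 k) ∉ v.asIdeal) →
      (3 ≤ G.card ∨ (2 ≤ G.card ∧ ∀ i ∈ G, Even (g i).natDegree)) →
      Real.log (max |(x : ℝ)| 1) ≤ C * (1 + Real.log M)) ∧
    (∀ (k : Type) [Field k] [NumberField k] (S : Finset (HeightOneSpectrum (𝓞 k))) (d : ℕ),
      ∃ C : ℝ, ∀ f : ℤ[X], f.natDegree ≤ d → (f.map (Int.castRingHom ℚ)).Separable →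
      ∀ M : ℝ, 1 ≤ M → (∀ i, |(f.coeff i : ℝ)| ≤ M) →
      ∀ (n : ℕ) (g : Fin n → (𝓞 k)[X]), f.map (Int.castRingHom (𝓞 k)) = ∏ i, g i →
      ∀ G : Finset (Fin n),
      (∀ i ∈ G, 0 < (g i).natDegree ∧
        (∃ e b : 𝓞 k, (g i).leadingCoeff = e * b ^ 2 ∧ ∀ v ∉ S, e ∉ v.asIdeal) ∧
        ∀ j, j ≠ i → ∃ (u w : (𝓞 k)[X]) (s : 𝓞 k), u * g i + w * g j = Polynomial.C s ∧
          ∀ v ∉ S, s ∉ v.asIdeal) →
      ∀ D : ℤ, D ≠ 0 →
      ({v : HeightOneSpectrum (𝓞 k) | v ∉ S ∧ (D : 𝓞 k) ∈ v.asIdeal}.ncard + 3 ≤ G.card ∨
        {v : HeightOneSpectrum (𝓞 k) | v ∉ S ∧ (D : 𝓞 k) ∈ v.asIdeal}.ncard + 2 ≤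
          {i : Fin n | i ∈ G ∧ Even (g i).natDegree}.ncard) →
      ∀ x y : ℤ, y ^ 2 = D * f.eval x →
      Real.log (max |(x : ℝ)| 1) ≤ C * (1 + Real.log M)) := by
  refine ⟨?_, ?_, ?_⟩
  · intro k _ _ T d
    obtain ⟨C, -, hC⟩ := Pool.Agent.H16U.two_div k T d
    exact ⟨C, hC⟩
  · intro k _ _ S d
    obtain ⟨C, -, hC⟩ := Pool.Agent.H16U.cop_point k S d
    exact ⟨C, hC⟩
  · intro k _ _ S d
    obtain ⟨C, -, hC⟩ := Pool.Agent.H16U.cop_family k S d
    exact ⟨C, hC⟩

end Pool.Agent.Results.MP_d88658_nt.CoprimeFactors
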