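import Pool.Agent.H41H.Fin
import Pool.Agent.H41H.All
import Pool.Agent.H41H.Rep
import Pool.Agent.H41H.One
import Pool.Agent.H41H.Gcd
import Pool.Agent.H41H.Glu
import Pool.Agent.H41H.Cls

/-!
# The Hall-Lang-Vojta bound for all curves at once, with few exceptional abscissas of any height

For `f ∈ ℤ[X]` of degree `3, …, d` without multiple roots, an integer `b ≠ 0` and a rational point
`(x, y)` of `b y² = f(x)` we consider the inequality
`h(x) ≤ C (1 + h(f) + h(b) + h(s))`, `s` the denominator of `x` (so `h(s) = 0` if `x` is an integer; `b = 1` is the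
question Q1). `Bound d C x` says that it holds at `x` for ALL such `f`, `b`, `y`.

The main theorem `result` bounds, uniformly in all curves, the set of all `x` of any height at which the inequality
fails, and derives that one constant `C` serves for all curves and all `x` near a generic point of any metric space,
and for all integers `x` near the powers of a generic real number.
-/

set_option autoImplicit false

namespace Pool.Agent.Results.MP_d88658_nt.FewExceptionsAllHeights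

open Polynomial Filter Topology

/-- the height of an integer, `h(a) = log max(|a|, 1)` -/
noncomputable def h (a : ℤ) : ℝ := Real.log (max |(a : ℝ)| 1)

/-- the largest absolute value of a coefficient of `f` -/
def M (f : ℤ[X]) : ℕ := f.support.sup fun i => (f.coeff i).natAbs

/-- the height of a rational number `r / s` in lowest terms, `max(|r|, s)`; it is `max(|x|, 1)` if `x` is an integer -/
def Ht (x : ℚ) : ℝ := max |(x.num : ℝ)| x.den

/-- `3 ≤ deg f ≤ d` and `f` has no multiple root -/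
def Crv (d : ℕ) (f : ℤ[X]) : Prop :=
  3 ≤ f.natDegree ∧ f.natDegree ≤ d ∧ (f.map (Int.castRingHom ℚ)).Separable

/-- the inequality of the question with the constant `C` at the abscissa `x`, for all curves `b y² = f(x)` -/
def Bound (d : ℕ) (C : ℝ) (x : ℚ) : Prop :=
  ∀ (f : ℤ[X]) (b : ℤ) (y : ℚ), Crv d f → b ≠ 0 → (b : ℚ) * y ^ 2 = aeval x f →
    Real.log (Ht x) ≤ C * (1 + Real.log (max (M f : ℝ) 1) + h b + Real.log x.den)

/-- the sums of `exp (-t v n)` converge for all `t > 0` -/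
def Thin (v : ℕ → ℝ) : Prop := ∀ t : ℝ, 0 < t → Summable fun n : ℕ => Real.exp (-(t * v n))

lemma not_bound_iff (d : ℕ) (C : ℝ) (x : ℚ) : ¬ Bound d C x ↔ H41H.Bad d C x := by
  unfold Bound H41H.Bad
  push Not
  constructor
  · rintro ⟨f, b, y, h1, h2, h3, h4⟩
    exact ⟨f, b, y, h1, h2, h3, h4⟩
  · rintro ⟨f, b, y, h1, h2, h3, h4⟩
    exact ⟨f, b, y, h1, h2, h3, h4⟩

lemma bound_iff (d : ℕ) (C : ℝ) (x : ℚ) : Bound d C x ↔ ¬ H41H.Bad d C x := by
  rw [← not_bound_iff, not_not]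

lemma Bound.mono {d : ℕ} {C C' : ℝ} {x : ℚ} (hC : C ≤ C') (hb : Bound d C x) : Bound d C' x := by
  rw [bound_iff] at hb ⊢
  exact fun hcon => hb (hcon.mono hC)

/-- finitely many integers `x` -/
lemma bound_small (d : ℕ) (B : ℝ) : ∃ C : ℝ, ∀ x : ℤ, |(x : ℝ)| ≤ B → Bound d C x := by
  refine ⟨Real.log (max B 1), fun x hx => ?_⟩
  rw [bound_iff]
  apply H41H.not_bad
  rw [H41H.Hx_int]
  exact Real.log_le_log (by positivity) (max_le_max hx le_rfl)

theorem all : H41H.S_ALL :=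
  H41H.t_ALL (H41H.t_REP H41H.t_ONE H41H.t_GCD H41H.t_GLU) H41H.t_CLS

theorem metric (Y : Type) [MetricSpace Y] (c : ℚ → Y) : ∃ E : Set Y, dimH E = 0 ∧
    ∀ z : Y, z ∉ E → ∀ (d : ℕ) (t : ℝ), 0 < t → ∃ C : ℝ, ∀ x : ℚ,
      dist z (c x) ≤ Ht x ^ (-t) → Bound d C x := by
  have h1 : ∀ d : ℕ, ∃ E : Set Y, dimH E = 0 ∧ ∀ z : Y, z ∉ E → ∀ t : ℝ, 0 < t → ∃ K : ℝ,
      ∀ x : ℚ, dist z (c x) ≤ H41H.Hx x ^ (-t) → ¬ H41H.Bad d K x := by
    intro d
    obtain ⟨κ, hκ, -, h3⟩ := H41H.bad_count all d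
    exact (H41H.law_d d (by linarith) h3 Y c).1
  choose E hE hE2 using h1
  refine ⟨⋃ d, E d, ?_, ?_⟩
  · refine le_antisymm ?_ bot_le
    rw [dimH_iUnion]
    exact iSup_le fun d => (hE d).le
  · intro z hz d t ht
    obtain ⟨C, hC⟩ := hE2 d z (fun hcon => hz (Set.mem_iUnion.2 ⟨d, hcon⟩)) t ht
    exact ⟨C, fun x hx => (bound_iff d C x).2 (hC x hx)⟩

theorem powers (v : ℕ → ℝ) (hv : Thin v) : ∃ E : Set ℝ, dimH E = 0 ∧ ∀ α : ℝ, 1 < α → α ∉ E →
    ∀ (d : ℕ) (θ : ℝ), θ < 1 → ∃ C : ℝ, ∀ (n : ℕ) (x : ℤ),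
      |(|(x : ℝ)|) - α ^ (v n)| ≤ (α ^ (v n)) ^ θ → Bound d C x := by
  have hl : ∀ l : ℕ, (0 : ℝ) < 1 / ((l : ℝ) + 1) := fun l => by positivity
  have h0 : ∀ d : ℕ, ∃ κ : ℝ, 0 < κ ∧ ∀ (l j : ℕ), ∃ E : Set ℝ,
      dimH E ≤ ENNReal.ofReal (κ / ((j : ℝ) + 1) / (1 - (1 - 1 / ((l : ℝ) + 1)))) ∧
      ∀ α : ℝ, 1 < α → α ∉ E → ∃ n₀ : ℕ, ∀ n : ℕ, n₀ ≤ n → ∀ x : ℤ,
        |(|(x : ℝ)|) - α ^ (v n)| ≤ (α ^ (v n)) ^ (1 - 1 / ((l : ℝ) + 1)) →
          Bound d ((j : ℝ) + 1) x := by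
    intro d
    obtain ⟨κ, hκ, -, h3⟩ := H41H.bad_count all d
    refine ⟨κ, by linarith, fun l j => ?_⟩
    obtain ⟨E, hE, h4⟩ := H41H.pow_d d (by linarith) h3 hv ((j : ℝ) + 1)
      (1 - 1 / ((l : ℝ) + 1)) (by positivity) (by
        have : 1 / ((l : ℝ) + 1) ≤ 1 := by
          rw [div_le_one (by positivity)]
          have : (0 : ℝ) ≤ l := Nat.cast_nonneg l
          linarith
        linarith) (by linarith [hl l])
    refine ⟨E, hE, fun α hα hαE => ?_⟩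
    obtain ⟨n₀, hn⟩ := h4 α hα hαE
    exact ⟨n₀, fun n hn1 x hx => (bound_iff _ _ _).2 (hn n hn1 x hx)⟩
  choose κ hκ E hdim hgood using h0
  refine ⟨⋃ d, ⋃ l, ⋂ j, E d l j, ?_, ?_⟩
  · refine le_antisymm ?_ bot_le
    rw [dimH_iUnion]
    refine iSup_le fun d => ?_
    rw [dimH_iUnion]
    refine iSup_le fun l => ?_
    have hlim : Tendsto (fun j : ℕ => ENNReal.ofReal (κ d / ((j : ℝ) + 1) /
        (1 - (1 - 1 / ((l : ℝ) + 1))))) atTop (𝓝 0) := by
      rw [← ENNReal.ofReal_zero]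
      apply ENNReal.tendsto_ofReal
      have h1 : Tendsto (fun j : ℕ => κ d / ((j : ℝ) + 1)) atTop (𝓝 0) := by
        apply Filter.Tendsto.const_div_atTop
        exact tendsto_atTop_add_const_right _ _ tendsto_natCast_atTop_atTop
      have h5 := h1.div_const (1 - (1 - 1 / ((l : ℝ) + 1)))
      rwa [zero_div] at h5
    exact ge_of_tendsto' hlim fun j => (dimH_mono (Set.iInter_subset _ j)).trans (hdim d l j)
  · intro α hα hαE d θ hθ
    obtain ⟨l, hl'⟩ := exists_nat_ge (1 / (1 - θ))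
    have h1 : α ∉ ⋂ j, E d l j := fun hcon =>
      hαE (Set.mem_iUnion.2 ⟨d, Set.mem_iUnion.2 ⟨l, hcon⟩⟩)
    rw [Set.mem_iInter] at h1
    push Not at h1
    obtain ⟨j, hj⟩ := h1
    obtain ⟨n₀, hn₀⟩ := hgood d l j α hα hj
    have hα0 : 0 < α := by linarith
    have hθl : θ ≤ 1 - 1 / ((l : ℝ) + 1) := by
      have e1 : 1 / ((l : ℝ) + 1) ≤ 1 - θ := by
        rw [div_le_iff₀ (by positivity)]
        rw [div_le_iff₀ (by linarith)] at hl'
        nlinarith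
      linarith
    have hvt : Tendsto v atTop atTop := Pool.Agent.R485.AN.Thin.tendsto hv
    obtain ⟨n₁, hn₁⟩ := eventually_atTop.1 (hvt.eventually_ge_atTop 0)
    -- the finitely many remaining windows
    obtain ⟨B, hB⟩ : ∃ B : ℝ, ∀ n < max n₀ n₁, ∀ x : ℤ,
        |(|(x : ℝ)|) - α ^ (v n)| ≤ (α ^ (v n)) ^ θ → |(x : ℝ)| ≤ B := by
      refine ⟨∑ n ∈ Finset.range (max n₀ n₁), (α ^ (v n) + (α ^ (v n)) ^ θ), fun n hn x hx => ?_⟩
      have h2 : |(x : ℝ)| ≤ α ^ (v n) + (α ^ (v n)) ^ θ := by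
        have := (abs_le.mp hx).2
        linarith
      exact h2.trans (Finset.single_le_sum (f := fun n => α ^ (v n) + (α ^ (v n)) ^ θ)
        (fun i _ => by positivity) (Finset.mem_range.mpr hn))
    obtain ⟨C', hC'⟩ := bound_small d B
    refine ⟨max ((j : ℝ) + 1) C', fun n x hx => ?_⟩
    rcases Nat.lt_or_ge n (max n₀ n₁) with hn | hn
    · exact (hC' x (hB n hn x hx)).mono (le_max_right _ _)
    · have hvn : 0 ≤ v n := hn₁ n ((le_max_right _ _).trans hn)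
      have h5 : 1 ≤ α ^ (v n) := Real.one_le_rpow hα.le hvn
      have h6 : (α ^ (v n)) ^ θ ≤ (α ^ (v n)) ^ (1 - 1 / ((l : ℝ) + 1)) :=
        Real.rpow_le_rpow_of_exponent_le h5 hθl
      exact (hn₀ n ((le_max_left _ _).trans hn) x (hx.trans h6)).mono (le_max_left _ _)

/-- **Theorem.** For every `d` there is `κ` with the following properties.
(1) For every `H ≥ 2` there are at most `H ^ κ` rational numbers `x` of height greater than `H ^ κ` (of ANY height) with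
denominator at most `H` that lie under a rational point of SOME curve `b y² = f(x)`, `f ∈ ℤ[X]` of degree `3, …, d`
without multiple roots, the coefficients of `f` and `b ≠ 0` bounded by `H`.
(2) For `C > 0`, `X ≥ 1` at most `κ X ^ (κ / C)` rational numbers of height at most `X` violate `Bound d C`.
(3) For every map `c` from the rational numbers to a metric space `Y` and `C, t > 0` there is `E ⊆ Y` of Hausdorff
dimension at most `κ / (C t)` such that for each `z ∉ E` only finitely many `x` with `dist z (c x) ≤ Ht(x) ^ (-t)` violate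
`Bound d C`. (4) For thin exponents `v n`, `0 ≤ θ < 1` and `C > 0` there is `E ⊆ ℝ` of dimension at most
`κ / (C (1 - θ))` such that for each `α > 1` outside `E` and all but finitely many `n` all the integers `x` with
`||x| - α ^ (v n)| ≤ α ^ (θ v n)` satisfy `Bound d C`.
(5) For every map `c` from the rational numbers to a metric space there is a set `E` of dimension zero such that for each
`z ∉ E`, all `d` and `t > 0` there is one `C` such that `Bound d C x` holds for ALL `x` with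
`dist z (c x) ≤ Ht(x) ^ (-t)`.
(6) For thin `v` there is a set `E` of dimension zero such that for each `α > 1` outside `E`, all `d` and `θ < 1` there
is one `C` such that `Bound d C x` holds for ALL integers `x` with `||x| - α ^ (v n)| ≤ α ^ (θ v n)` for some `n`. -/
theorem result :
    (∀ d : ℕ, ∃ κ : ℝ, 1 ≤ κ ∧
      (∀ H : ℝ, 2 ≤ H →
        {x : ℚ | H ^ κ < Ht x ∧ (x.den : ℝ) ≤ H ∧ ∃ (f : ℤ[X]) (b : ℤ) (y : ℚ), Crv d f ∧ b ≠ 0 ∧
          (b : ℚ) * y ^ 2 = aeval x f ∧ (M f : ℝ) ≤ H ∧ |(b : ℝ)| ≤ H}.Finite ∧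
        ({x : ℚ | H ^ κ < Ht x ∧ (x.den : ℝ) ≤ H ∧ ∃ (f : ℤ[X]) (b : ℤ) (y : ℚ), Crv d f ∧ b ≠ 0 ∧
          (b : ℚ) * y ^ 2 = aeval x f ∧ (M f : ℝ) ≤ H ∧ |(b : ℝ)| ≤ H}.ncard : ℝ) ≤ H ^ κ) ∧
      (∀ C : ℝ, 0 < C → ∀ X : ℝ, 1 ≤ X → {x : ℚ | ¬ Bound d C x ∧ Ht x ≤ X}.Finite ∧
        ({x : ℚ | ¬ Bound d C x ∧ Ht x ≤ X}.ncard : ℝ) ≤ κ * X ^ (κ / C)) ∧
      (∀ (Y : Type) [MetricSpace Y] (c : ℚ → Y) (C t : ℝ), 0 < C → 0 < t →
        ∃ E : Set Y, dimH E ≤ ENNReal.ofReal (κ / (C * t)) ∧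
          ∀ z : Y, z ∉ E → {x : ℚ | dist z (c x) ≤ Ht x ^ (-t) ∧ ¬ Bound d C x}.Finite) ∧
      (∀ v : ℕ → ℝ, Thin v → ∀ C θ : ℝ, 0 < C → 0 ≤ θ → θ < 1 →
        ∃ E : Set ℝ, dimH E ≤ ENNReal.ofReal (κ / (C * (1 - θ))) ∧ ∀ α : ℝ, 1 < α → α ∉ E →
          ∃ n₀ : ℕ, ∀ n : ℕ, n₀ ≤ n → ∀ x : ℤ,
            |(|(x : ℝ)|) - α ^ (v n)| ≤ (α ^ (v n)) ^ θ → Bound d C x)) ∧
    (∀ (Y : Type) [MetricSpace Y] (c : ℚ → Y), ∃ E : Set Y, dimH E = 0 ∧
      ∀ z : Y, z ∉ E → ∀ (d : ℕ) (t : ℝ), 0 < t → ∃ C : ℝ, ∀ x : ℚ,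
        dist z (c x) ≤ Ht x ^ (-t) → Bound d C x) ∧
    (∀ v : ℕ → ℝ, Thin v → ∃ E : Set ℝ, dimH E = 0 ∧ ∀ α : ℝ, 1 < α → α ∉ E →
      ∀ (d : ℕ) (θ : ℝ), θ < 1 → ∃ C : ℝ, ∀ (n : ℕ) (x : ℤ),
        |(|(x : ℝ)|) - α ^ (v n)| ≤ (α ^ (v n)) ^ θ → Bound d C x) := by
  refine ⟨fun d => ?_, fun Y _ c => metric Y c, powers⟩
  obtain ⟨κ, hκ, h1, h2⟩ := H41H.bad_count all d
  have hκ0 : 0 < κ := by linarith
  refine ⟨κ, hκ, fun H hH => h1 H hH, fun C hC X hX => ?_, fun Y _ c C t hC ht => ?_,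
    fun v hv C θ hC hθ0 hθ1 => ?_⟩
  · have h3 : {x : ℚ | ¬ Bound d C x ∧ Ht x ≤ X} = {x : ℚ | H41H.Bad d C x ∧ H41H.Hx x ≤ X} := by
      ext x
      exact and_congr (not_bound_iff d C x) Iff.rfl
    rw [h3]
    exact h2 C hC X hX
  · obtain ⟨E, hE, h3⟩ := (H41H.law_d d hκ0 h2 Y c).2 C t hC ht
    rw [div_div] at hE
    refine ⟨E, hE, fun z hz => (h3 z hz).subset ?_⟩
    rintro x ⟨h4, h5⟩
    exact ⟨h4, (not_bound_iff d C x).1 h5⟩
  · obtain ⟨E, hE, h3⟩ := H41H.pow_d d hκ0 h2 hv C θ hC hθ0 hθ1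
    rw [div_div] at hE
    refine ⟨E, hE, fun α hα hαE => ?_⟩
    obtain ⟨n₀, hn⟩ := h3 α hα hαE
    exact ⟨n₀, fun n hn1 x hx => (bound_iff _ _ _).2 (hn n hn1 x hx)⟩

end Pool.Agent.Results.MP_d88658_nt.FewExceptionsAllHeights
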