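import Pool.Agent.H16V.Fin

/-!
# Uniform bounds for integral points on `y² = f(x)` when `B² f = D A² + c (e X + r)^m`, `m` odd

If `2 deg A < m`, the identity says that the divisor class of `P - ∞` is killed by `m`, where `P` is
the point above `x = -r/e`; condition `(*)` says that its order is exactly `m`, so that the curve
has an unramified cyclic covering of degree `m`, defined over `ℚ`. All bounds are of the form
`log |x| ≤ C₁(m) (log M + C₂)`.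

* Part 1: the points in one Kummer class, `C₂` depends on `m, D` and the class.
* Part 2: `D` and `c` composed of primes of `S`, and the points at which no prime outside `S`
  divides both `A(x)` and `e x + r`; `C₂` depends on `m` and `S` only.
* Part 3: the same for `B = 1`, with a bound in terms of the coefficients of `f` only.
* Part 4: all integral points, if moreover `A` and `e X + r` are comaximal over `ℤ[1/S]`.
-/

set_option autoImplicit false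

open Polynomial

namespace Pool.Agent.Results.MP_d88658_nt.OddTorsionFamilies

theorem result :
    -- Part 1: one Kummer class
    (∀ (m : ℕ) (D : ℤ) (t₁ t₂ : ℚ), Odd m → 1 < m → D ≠ 0 → t₁ ^ 2 - D * t₂ ^ 2 ≠ 0 →
      ∃ K : ℕ, ∀ (f A B : ℤ[X]) (c e r : ℤ) (M : ℕ), c ≠ 0 → e ≠ 0 →
        |c| ≤ M → |e| ≤ M → |r| ≤ M → (∀ i, |A.coeff i| ≤ M) →
        B ^ 2 * f = C D * A ^ 2 + C c * (C e * X + C r) ^ m → 2 * A.natDegree < m →
        Squarefree (f.map (Int.castRingHom ℚ)) →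
        (∀ p : ℕ, p.Prime → p ∣ m → ∀ (t g : ℂ[X]) (ε : ℂ), g ≠ 0 → ε ≠ 0 →
          t ^ 2 ≠ g ^ 2 * f.map (Int.castRingHom ℂ)
            + C ε * (C (e : ℂ) * X + C (r : ℂ)) ^ (m / p)) →
        ∀ (x y : ℤ) (u v : ℚ), y ^ 2 = f.eval x →
        (∀ s : ℂ, s ^ 2 = D → ((B.eval x * y : ℤ) : ℂ) + (A.eval x : ℤ) * s
          = (t₁ + t₂ * s) * (u + v * s) ^ m) →
        |x| ≤ ((K * M : ℕ) : ℤ) ^ (10 ^ 12 * 36 ^ m * (m + 1) ^ 16)) ∧
    -- Part 2: `D`, `c` composed of primes of `S`, points with a coprimality condition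
    (∀ (m : ℕ) (S : Finset ℕ), Odd m → 1 < m →
      ∃ K : ℕ, ∀ (f A B : ℤ[X]) (D c e r : ℤ) (M : ℕ), D ≠ 0 → c ≠ 0 → e ≠ 0 →
        |D| ≤ M → |c| ≤ M → |e| ≤ M → |r| ≤ M → (∀ i, |A.coeff i| ≤ M) →
        B ^ 2 * f = C D * A ^ 2 + C c * (C e * X + C r) ^ m → 2 * A.natDegree < m →
        Squarefree (f.map (Int.castRingHom ℚ)) →
        (∀ p : ℕ, p.Prime → p ∣ m → ∀ (t g : ℂ[X]) (ε : ℂ), g ≠ 0 → ε ≠ 0 →
          t ^ 2 ≠ g ^ 2 * f.map (Int.castRingHom ℂ)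
            + C ε * (C (e : ℂ) * X + C (r : ℂ)) ^ (m / p)) →
        (∀ p : ℕ, p.Prime → (p : ℤ) ∣ D * c → p ∈ S) →
        ∀ x y : ℤ, y ^ 2 = f.eval x →
        (∀ p : ℕ, p.Prime → (p : ℤ) ∣ A.eval x → (p : ℤ) ∣ e * x + r → p ∈ S) →
        |x| ≤ ((K * M : ℕ) : ℤ) ^ (10 ^ 12 * 36 ^ m * (m + 1) ^ 16)) ∧
    -- Part 3: `B = 1`, in terms of the coefficients of `f`
    (∀ (m : ℕ) (S : Finset ℕ), Odd m → 1 < m →
      ∃ K : ℕ, ∀ (f A : ℤ[X]) (D c e r : ℤ) (M : ℕ), D ≠ 0 → c ≠ 0 → e ≠ 0 →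
        (∀ i, |f.coeff i| ≤ M) → f = C D * A ^ 2 + C c * (C e * X + C r) ^ m →
        2 * A.natDegree < m → Squarefree (f.map (Int.castRingHom ℚ)) →
        (∀ p : ℕ, p.Prime → (p : ℤ) ∣ D * c → p ∈ S) →
        ∀ x y : ℤ, y ^ 2 = f.eval x →
        (∀ p : ℕ, p.Prime → (p : ℤ) ∣ A.eval x → (p : ℤ) ∣ e * x + r → p ∈ S) →
        |x| ≤ ((K * M : ℕ) : ℤ) ^ (10 ^ 12 * 36 ^ m * (m + 1) ^ 16)) ∧
    -- Part 4: all integral points
    (∀ (m : ℕ) (S : Finset ℕ), Odd m → 1 < m →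
      ∃ K : ℕ, ∀ (f A U V : ℤ[X]) (D c e r n : ℤ) (M : ℕ), D ≠ 0 → c ≠ 0 → e ≠ 0 →
        (∀ i, |f.coeff i| ≤ M) → f = C D * A ^ 2 + C c * (C e * X + C r) ^ m →
        2 * A.natDegree < m → Squarefree (f.map (Int.castRingHom ℚ)) →
        U * A + V * (C e * X + C r) = C n →
        (∀ p : ℕ, p.Prime → (p : ℤ) ∣ D * c * n → p ∈ S) →
        ∀ x y : ℤ, y ^ 2 = f.eval x →
        |x| ≤ ((K * M : ℕ) : ℤ) ^ (10 ^ 12 * 36 ^ m * (m + 1) ^ 16)) :=
  ⟨Pool.Agent.H16V.part1, Pool.Agent.H16V.part2, Pool.Agent.H16V.part3, Pool.Agent.H16V.part4⟩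

end Pool.Agent.Results.MP_d88658_nt.OddTorsionFamilies
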